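import Pool.Agent.Lib.BR18.Main2

/-! Every non-real number field is the invariant trace field of the holonomy of a positively
oriented ideal face pairing. -/

namespace Pool.Agent.Results.MP_095502_gt.Branched

open Pool.Agent.Lib.BR18

theorem result (k : IntermediateField ℚ ℂ) (hk : FiniteDimensional ℚ k)
    (hnr : ∃ w ∈ k, w.im ≠ 0) :
    (∃ z : ℂ, 0 < z.im ∧ IntermediateField.adjoin ℚ {z} = k) ∧
    ∀ z : ℂ, 0 < z.im → IntermediateField.adjoin ℚ {z} = k →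
    ∃ (I : Type) (_ : Fintype I) (v : I → Fin 4 → Fin 2 → ℂ) (nb : I × Fin 4 → I × Fin 4)
      (π : I × Fin 4 → Equiv.Perm (Fin 4))
      (g : I × Fin 4 → Matrix.SpecialLinearGroup (Fin 2) ℂ),
      (∀ a, nb (nb a) = a ∧ nb a ≠ a ∧ π (nb a) = (π a)⁻¹ ∧ π a a.2 = (nb a).2 ∧
        Equiv.Perm.sign (π a) = -1) ∧
      (∀ i i', ∃ γ, Walk nb g i γ i') ∧
      (∀ a j, j ≠ a.2 → (g a).1.mulVec (v a.1 j) = v (nb a).1 (π a j)) ∧
      (∀ i j l, v i j l ∈ k) ∧ (∀ i, 0 < (shape (v i)).im) ∧ (∃ i, shape (v i) = z) ∧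
      (∀ i j, ∃ u, Walk nb g i u i ∧ u ≠ 1 ∧ u.1.mulVec (v i j) = v i j) ∧
      ∀ i, itf nb g i = k :=
  main2 k hk hnr

end Pool.Agent.Results.MP_095502_gt.Branched
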