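import Pool.Agent.Lib.CF88.Fld

set_option autoImplicit false

namespace Pool.Agent.Results.MP_095502_gt.Confined

/-- There is a constant `C` such that every non-real number field in `ℂ` is the invariant trace
field of a discrete torsion-free subgroup of `SL(2,ℂ)` each of whose conjugates contains a
non-trivial element with entries bounded by `C`. -/
theorem result : ∃ C : ℝ, ∀ k : IntermediateField ℚ ℂ, FiniteDimensional ℚ k →
    (∃ w ∈ k, w.im ≠ 0) →
    ∃ G : Subgroup (Matrix.SpecialLinearGroup (Fin 2) ℂ), DiscreteTopology G ∧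
      (∀ g ∈ G, IsOfFinOrder g → g = 1) ∧
      (∀ g : Matrix.SpecialLinearGroup (Fin 2) ℂ, ∃ c ∈ G, c ≠ 1 ∧
        ∀ i j, ‖(g⁻¹ * c * g) i j‖ ≤ C) ∧
      IntermediateField.adjoin ℚ
        ((fun g : Matrix.SpecialLinearGroup (Fin 2) ℂ => (g : Matrix (Fin 2) (Fin 2) ℂ).trace) ''
          (Subgroup.closure ((fun g : Matrix.SpecialLinearGroup (Fin 2) ℂ => g ^ 2) ''
            (G : Set (Matrix.SpecialLinearGroup (Fin 2) ℂ))) :
              Set (Matrix.SpecialLinearGroup (Fin 2) ℂ))) = k := by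
  refine ⟨200000, fun k _ hk => ?_⟩
  obtain ⟨th, hth⟩ := Pool.Agent.CF88.exists_gen k
  exact Pool.Agent.CF88.main k th hth hk

end Pool.Agent.Results.MP_095502_gt.Confined
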